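import Pool.Agent.Helper486.TP.Final

/-!
# The Riesz measure of the lower envelope of δ-subharmonic functions (MP_730047_an, Q1: yes)

Definitions (all in `Pool/Agent/Helper486/TP/PDefs.lean`): `Subharmonic Ω u` is the classical
definition (upper semicontinuous, values in `[-∞, ∞)`, not identically `-∞`, submean value property
on balls); `DeltaSubharmonic Ω w` says that `w = u - v` off a polar set with `u`, `v` subharmonic
in `Ω`; `SignedRadon Ω` are the signed Radon measures on `Ω` (differences of two positive Borel
measures which are finite on compact subsets of `Ω`), ordered by `μ ≤ ν` iff `μ(B) ≤ ν(B)` for all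
Borel sets `B` contained in a compact subset of `Ω`; `IsRiesz c Ω w μ` says that `μ = c Δw` on `Ω`
in the sense of distributions.

The theorem is `riesz_envelope` of the starting library (helper486), which was proved there on the
way to the triple meet of harmonic measures of disjoint fine domains (MP_291eb9_an).
-/

set_option autoImplicit false

namespace Pool.Agent.Results.MP_730047_an.LowerEnvelope

open Pool.Agent.Helper486.TP

/-- Let `n ≥ 2` (in particular `n ≥ 3`), let `Ω ⊆ ℝⁿ` be a domain, let `m ≥ 2`, let `w 1, ..., w m`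
be δ-subharmonic functions in `Ω` and let `c > 0` be the normalising constant of the Riesz measure
`μ[w] = c Δw`. Then (1) the minimum of all `w j` and (2) the minima `w j ∧ w k` have Riesz measures,
which are signed Radon measures on `Ω`; and (3) for all Riesz measures `μ` of the minimum of all
`w j` and `ρ j k` of `w j ∧ w k`, `j < k`, the measures `ρ j k`, `j < k`, have a greatest lower
bound in the ordered set of signed Radon measures on `Ω`, and it is at most `μ`:
`μ[⋀ w j] ≥ ⋀_{j<k} μ[w j ∧ w k]`. -/
theorem result {n : ℕ} (hn : 2 ≤ n) {Ω : Set (E n)} (hΩ : IsOpen Ω) (hΩc : IsConnected Ω) {m : ℕ}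
    (hm : 2 ≤ m) (w : Fin m → E n → EReal) (hw : ∀ j, DeltaSubharmonic Ω (w j)) {c : ℝ}
    (hc : 0 < c) :
    (∃ μ, IsRiesz c Ω (fun x => ⨅ j, w j x) μ) ∧
    (∀ j k, ∃ ρ, IsRiesz c Ω (fun x => min (w j x) (w k x)) ρ) ∧
    ∀ (μ : SignedRadon Ω) (ρ : Fin m → Fin m → SignedRadon Ω),
      IsRiesz c Ω (fun x => ⨅ j, w j x) μ →
      (∀ j k, j < k → IsRiesz c Ω (fun x => min (w j x) (w k x)) (ρ j k)) →
      (∃ I, IsGLB {κ | ∃ j k, j < k ∧ κ = ρ j k} I) ∧
      ∀ I, IsGLB {κ | ∃ j k, j < k ∧ κ = ρ j k} I → I ≤ μ :=
  riesz_envelope (by omega) hΩ hΩc.isPreconnected hm w hw hc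

end Pool.Agent.Results.MP_730047_an.LowerEnvelope
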